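import Pool.Agent.WAP.StmtsL

/-!
# WAP row TOB: torsion bound over an algebraically closed field
-/

set_option autoImplicit false

namespace Pool.Agent.WAP.H46

open Pool.Agent.WAP
open Classical Polynomial WeierstrassCurve.Affine

theorem tr_some {K L : Type} [Field K] [Field L] {d : K} {d' : L} (σ : K →+* L)
    (h : d' = 1 ^ 2 * σ d) (X Y : K) (hn : (W d).Nonsingular X Y) :
    ∃ hn', Tr σ 1 one_ne_zero h (Point.some X Y hn : Pt d) =
      (Point.some (σ X) (σ Y) hn' : Pt d') := by
  have hn' := Trf_aux σ 1 one_ne_zero h hn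
  have e1 : (1 : L) ^ 2 * σ X = σ X := by ring
  have e2 : (1 : L) ^ 3 * σ Y = σ Y := by ring
  refine ⟨by simpa using hn', ?_⟩
  show Trf σ 1 one_ne_zero h (Point.some X Y hn) = _
  simp only [Trf, Point.some.injEq]
  exact ⟨e1, e2⟩

theorem tob (gnp : GnpStmt) (nco : NcoStmt) (deg : DegStmt) : TobStmt := by
  intro F _ _ _ d h2 hd a ha A hA
  obtain ⟨L, instL, instA, ι, X, Y, h, hGen⟩ := gnp F d h2 hd
  obtain ⟨Ap, Bp, X', Y', h', hsm, hB0, hAdeg, hBdeg, hX'⟩ := deg F d h2 hd L ι X Y h hGen a ha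
  set φ : F →+* L := (ι : F →+* L) with hφ
  have hφι : ∀ c, φ c = ι c := fun c => rfl
  have hd1 : ι d = 1 ^ 2 * φ d := by rw [hφι]; ring
  have h2L : (2 : L) ≠ 0 := by
    intro h0
    apply h2
    apply φ.injective
    rw [map_zero, map_ofNat]
    exact h0
  have hdL : ι d ≠ 0 := by
    intro h0
    apply hd
    apply φ.injective
    rw [map_zero]
    exact h0
  obtain ⟨T, hT⟩ : ∃ T : Pt d →+ Pt (ι d), T = Tr φ 1 one_ne_zero hd1 := ⟨_, rfl⟩
  have hTinj : Function.Injective T := by
    rw [hT]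
    exact Trf_injective φ 1 one_ne_zero hd1
  have hTB : ∀ Q : Pt d, BcR ι Q (T Q) := by
    intro Q
    rcases Q with _ | ⟨x, y, hxy⟩
    · left
      exact ⟨rfl, map_zero T⟩
    · right
      obtain ⟨hn', e⟩ := tr_some φ hd1 x y hxy
      rw [hT]
      exact ⟨x, y, hxy, hn', rfl, e⟩
  have hTsm : ∀ (b : GaussianInt) (Q : Pt d), T (sm b Q) = sm b (T Q) := by
    intro b Q
    have h3 := Tr_gsm φ 1 one_ne_zero hd1 (algebraMap GaussianInt F) b Q
    have e : φ.comp (algebraMap GaussianInt F) = algebraMap GaussianInt L := ι.comp_algebraMap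
    rw [e] at h3
    rw [hT]
    exact h3
  choose σ hσh hσι hσP using fun Q => hGen.emb Q (T Q) (hTB Q)
  -- the transfer along `σ Q`
  have hd2 : ∀ Q, ι d = 1 ^ 2 * ((σ Q : L →ₐ[GaussianInt] L) : L →+* L) (ι d) := by
    intro Q
    have : ((σ Q : L →ₐ[GaussianInt] L) : L →+* L) (ι d) = σ Q (ι d) := rfl
    rw [this, hσι]
    ring
  have hS : ∀ Q, sm a Q = 0 → σ Q X' = X' := by
    intro Q hQ
    have h3 := Tr_gsm ((σ Q : L →ₐ[GaussianInt] L) : L →+* L) 1 one_ne_zero (hd2 Q)
      (algebraMap GaussianInt L) a (Point.some X Y h : Pt (ι d))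
    have e : ((σ Q : L →ₐ[GaussianInt] L) : L →+* L).comp (algebraMap GaussianInt L) =
      algebraMap GaussianInt L := (σ Q).comp_algebraMap
    rw [e] at h3
    obtain ⟨hn1, e1⟩ := tr_some ((σ Q : L →ₐ[GaussianInt] L) : L →+* L) (hd2 Q) X Y h
    obtain ⟨hn2, e2⟩ := tr_some ((σ Q : L →ₐ[GaussianInt] L) : L →+* L) (hd2 Q) X' Y' h'
    have e3 : gsm (algebraMap GaussianInt L) a (Point.some X Y h : Pt (ι d)) =
      Point.some X' Y' h' := hsm
    rw [e1, e3, e2] at h3
    have e4 : (Point.some (((σ Q : L →ₐ[GaussianInt] L) : L →+* L) X)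
        (((σ Q : L →ₐ[GaussianInt] L) : L →+* L) Y) hn1 : Pt (ι d)) =
        (Point.some X Y h : Pt (ι d)) + T Q := (hσP Q).symm
    rw [e4, gsm_add, e3] at h3
    have e5 : gsm (algebraMap GaussianInt L) a (T Q) = 0 := by
      have : sm a (T Q) = 0 := by rw [← hTsm, hQ, map_zero]
      exact this
    rw [e5, add_zero, Point.some.injEq] at h3
    exact h3.1
  obtain ⟨Φ, hΦ⟩ : ∃ Φ : L[X], Φ = Ap.map φ - C X' * Bp.map φ := ⟨_, rfl⟩
  have hroot : ∀ Q, sm a Q = 0 → Φ.eval (σ Q X) = 0 := by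
    intro Q hQ
    have h3 := congrArg (fun x => σ Q x) hX'
    simp only [map_mul] at h3
    have h4 : ∀ p : F[X], σ Q (p.eval₂ φ X) = p.eval₂ φ (σ Q X) := by
      intro p
      have := Polynomial.hom_eval₂ p φ ((σ Q : L →ₐ[GaussianInt] L) : L →+* L) X
      have e : ((σ Q : L →ₐ[GaussianInt] L) : L →+* L).comp φ = φ := by
        ext c
        exact hσι Q c
      rw [e] at this
      exact this
    rw [h4, h4, hS Q hQ] at h3
    rw [hΦ, eval_sub, eval_mul, eval_C, eval_map, eval_map, ← h3, sub_self]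
  have hΦ0 : Φ ≠ 0 := by
    intro h0
    rw [hΦ, sub_eq_zero] at h0
    have h3 := congrArg (fun p => Polynomial.coeff p Bp.natDegree) h0
    simp only [coeff_map, coeff_C_mul] at h3
    obtain ⟨c, hc⟩ : ∃ c, X' = φ c := by
      refine ⟨Ap.coeff Bp.natDegree / Bp.coeff Bp.natDegree, ?_⟩
      rw [map_div₀, h3]
      have : φ (Bp.coeff Bp.natDegree) ≠ 0 := by
        rw [Ne, map_eq_zero]
        exact Polynomial.leadingCoeff_ne_zero.mpr hB0
      field_simp
    have heq := (W_nonsingular (ι d) X' Y' h2L hdL).mp h'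
    obtain ⟨e, he⟩ := IsAlgClosed.exists_pow_nat_eq (c ^ 3 - d ^ 2 * c) (n := 2) (by norm_num)
    have h5 : (Y' - φ e) * (Y' + φ e) = 0 := by
      have : φ e ^ 2 = φ c ^ 3 - φ d ^ 2 * φ c := by
        rw [← map_pow, he, map_sub, map_mul, map_pow, map_pow]
      rw [hc] at heq
      have hdd : φ d = ι d := rfl
      rw [hdd] at this
      linear_combination heq - this
    obtain ⟨e', he', hY⟩ : ∃ e', e' ^ 2 = c ^ 3 - d ^ 2 * c ∧ Y' = φ e' := by
      rcases mul_eq_zero.mp h5 with h6 | h6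
      · exact ⟨e, he, by linear_combination h6⟩
      · exact ⟨-e, by rw [← he]; ring, by rw [map_neg]; linear_combination h6⟩
    have hns : (W d).Nonsingular c e' := (W_nonsingular d c e' h2 hd).mpr he'
    refine nco F d h2 hd L ι X Y h hGen a ha (Point.some c e' hns) (Point.some X' Y' h') ?_ hsm
    right
    subst hY
    subst hc
    exact ⟨c, e', hns, h', rfl, rfl⟩
  have hinj : ∀ Q1 Q2, σ Q1 X = σ Q2 X → Q1 = Q2 := by
    intro Q1 Q2 hX
    have y1 := (W_nonsingular (ι d) _ _ h2L hdL).mp (hσh Q1)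
    have y2 := (W_nonsingular (ι d) _ _ h2L hdL).mp (hσh Q2)
    have h5 : (σ Q1 Y - σ Q2 Y) * (σ Q1 Y + σ Q2 Y) = 0 := by
      rw [hX] at y1
      linear_combination y1 - y2
    rcases mul_eq_zero.mp h5 with h6 | h6
    · have h7 : σ Q1 Y = σ Q2 Y := by linear_combination h6
      have h8 : (Point.some X Y h : Pt (ι d)) + T Q1 = (Point.some X Y h : Pt (ι d)) + T Q2 := by
        rw [hσP Q1, hσP Q2, Point.some.injEq]
        exact ⟨hX, h7⟩
      exact hTinj (add_left_cancel h8)
    · exfalso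
      have h7 : σ Q1 Y = -σ Q2 Y := by linear_combination h6
      have h8 : (Point.some X Y h : Pt (ι d)) + T Q1 =
          -((Point.some X Y h : Pt (ι d)) + T Q2) := by
        rw [hσP Q1, hσP Q2, Point.neg_some, Point.some.injEq, W_negY]
        exact ⟨hX, h7⟩
      have h9 : sm (2 : GaussianInt) (Point.some X Y h : Pt (ι d)) = T (-(Q1 + Q2)) := by
        have e1 : sm (2 : GaussianInt) (Point.some X Y h : Pt (ι d)) =
            (Point.some X Y h : Pt (ι d)) + Point.some X Y h := by
          have e2 : (2 : GaussianInt) = 1 + 1 := by norm_num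
          show gsm (algebraMap GaussianInt L) 2 _ = _
          rw [e2, add_gsm]
          have e3 : gsm (algebraMap GaussianInt L) 1 (Point.some X Y h : Pt (ι d)) =
            Point.some X Y h := by simp [gsm]
          rw [e3]
        rw [e1, map_neg, map_add]
        have h10 := h8
        rw [neg_add] at h10
        have h11 : (Point.some X Y h : Pt (ι d)) = -(Point.some X Y h) + -T Q2 - T Q1 := by
          rw [← h10]
          abel
        calc (Point.some X Y h : Pt (ι d)) + Point.some X Y h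
            = (-(Point.some X Y h) + -T Q2 - T Q1) + Point.some X Y h := by rw [← h11]
          _ = -(T Q1 + T Q2) := by abel
      have h20 : (2 : GaussianInt) ≠ 0 := by decide
      exact nco F d h2 hd L ι X Y h hGen 2 h20 (-(Q1 + Q2)) (T (-(Q1 + Q2))) (hTB _) h9
  calc A.card ≤ Φ.roots.toFinset.card := by
        apply Finset.card_le_card_of_injOn (fun Q => σ Q X)
        · intro Q hQ
          have := hroot Q (hA Q hQ)
          simp only [Finset.mem_coe, Multiset.mem_toFinset]
          rw [mem_roots hΦ0]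
          exact this
        · intro Q1 _ Q2 _ h12
          exact hinj Q1 Q2 h12
    _ ≤ Multiset.card Φ.roots := Multiset.toFinset_card_le _
    _ ≤ Φ.natDegree := Polynomial.card_roots' Φ
    _ ≤ 2 * nm a - 1 := by
        rw [hΦ]
        refine le_trans (natDegree_sub_le _ _) (max_le ?_ ?_)
        · exact le_trans (natDegree_map_le) hAdeg
        · refine le_trans (natDegree_C_mul_le _ _) (le_trans (natDegree_map_le) hBdeg)

end Pool.Agent.WAP.H46
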