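import Pool.Agent.WAP.StmtsC

/-!
# WAP row CFI: points `(P, k P)` near every point of the surface (complex place)
-/

set_option autoImplicit false

namespace Pool.Agent.WAP.H46

open Pool.Agent.WAP Pool.Agent.WAP.C Classical
open WeierstrassCurve.Affine

theorem eq_mkPt {F : Type} [Field F] {d : F} (P : Pt d) (hP : P ≠ 0) : P = mkPt d (cX P) (cY P) := by
  rcases P with _ | ⟨X, Y, h⟩
  · exact absurd rfl hP
  · show _ = mkPt d X Y
    unfold mkPt
    rw [dif_pos h]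

theorem curve_eq {F : Type} [Field F] {d : F} (P : Pt d) :
    P ≠ 0 → cY P ^ 2 = cX P ^ 3 - d ^ 2 * cX P := by
  intro hP
  rcases P with _ | ⟨X, Y, h⟩
  · exact absurd rfl hP
  · exact (W_equation d X Y).mp h.1

theorem ck_eq {F : Type} [Field F] [Algebra GaussianInt F] (k : GaussianInt) (τ s D : F)
    (hs : s ^ 2 = cub τ) (hs0 : s ≠ 0) (hD : cub τ = D) (σ : Pt (1 : F) →+ Pt D)
    (hinj : Function.Injective σ)
    (hc : ∀ P, cX (σ P) = s ^ 2 * cX P ∧ cY (σ P) = s ^ 3 * cY P)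
    (hsm : ∀ (a : GaussianInt) (P : Pt (1 : F)), σ (sm a P) = sm a (σ P))
    (P : Pt (1 : F)) (hP : P ≠ 0) (hX : cX P = τ) (hY : cY P = s) :
    ck k τ = (τ, cX (sm k P), s * cY (sm k P)) := by
  subst hD
  have h1 : σ P ≠ 0 := by
    intro h0
    apply hP
    apply hinj
    rw [h0, map_zero]
  have h2 : mkPt (cub τ) (τ * cub τ) (cub τ ^ 2) = σ P := by
    rw [eq_mkPt (σ P) h1, (hc P).1, (hc P).2, hX, hY]
    congr 1
    · rw [hs]; ring
    · rw [← hs]; ring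
  unfold ck
  rw [h2, ← hsm]
  unfold kum
  rw [(hc P).1, (hc P).2, (hc (sm k P)).1, (hc (sm k P)).2, hX, hY, ← hs]
  refine Prod.ext ?_ (Prod.ext ?_ ?_)
  · show s ^ 2 * τ / s ^ 2 = τ
    field_simp
  · show s ^ 2 * cX (sm k P) / s ^ 2 = cX (sm k P)
    field_simp
  · show s ^ 3 * s * (s ^ 3 * cY (sm k P)) / (s ^ 2) ^ 3 = s * cY (sm k P)
    field_simp

theorem cfi (cno : CnoStmt) (cge : CgeStmt) (ksc : KscStmt) (cxf : CxfStmt) : CfiStmt := by
  intro F _ _ hF V hV hne k0 m hm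
  obtain ⟨⟨hn, -⟩, hquad, -, -, -⟩ := cxf F hF
  have h2 : (2 : F) ≠ 0 := by
    intro h0
    have := hn 2
    simp only [Nat.cast_ofNat] at this
    rw [h0, norm_zero] at this
    norm_num at this
  obtain ⟨⟨x0, t0, y0⟩, hz, hU⟩ := hne
  obtain ⟨hU1, hU2⟩ := hU
  simp only at hU1 hU2
  have hx0 : cub x0 ≠ 0 := by
    intro h0
    rw [h0, zero_mul] at hU1
    exact hU2 (pow_eq_zero_iff (two_ne_zero) |>.mp hU1)
  obtain ⟨s0, hs0⟩ := hquad 0 (-cub x0)
  have hs0' : s0 ^ 2 = cub x0 := by linear_combination hs0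
  have hs00 : s0 ≠ 0 := by
    rintro rfl
    apply hx0
    rw [← hs0']
    ring
  -- neighbourhoods
  obtain ⟨ε, hε, hball⟩ := Metric.isOpen_iff.mp hV _ hz
  have hcont : ContinuousAt (fun p : F × F => p.1 * p.2) (s0, y0 / s0) :=
    (continuous_fst.mul continuous_snd).continuousAt
  have hval : (fun p : F × F => p.1 * p.2) (s0, y0 / s0) = y0 := by
    show s0 * (y0 / s0) = y0
    field_simp
  obtain ⟨δ, hδ, hδ1⟩ : ∃ δ > 0, ∀ s Y : F, ‖s - s0‖ < δ → ‖Y - y0 / s0‖ < δ →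
      ‖s * Y - y0‖ < ε ∧ s * Y ≠ 0 := by
    have h3 : ∀ᶠ w in nhds y0, ‖w - y0‖ < ε ∧ w ≠ 0 := by
      apply Filter.Eventually.and
      · have := Metric.ball_mem_nhds y0 hε
        filter_upwards [this] with w hw
        rw [Metric.mem_ball, dist_eq_norm] at hw
        exact hw
      · exact IsOpen.mem_nhds isOpen_ne hU2
    rw [← hval] at h3
    have h4 := hcont.eventually h3
    rw [hval] at h4
    obtain ⟨δ, hδ, h5⟩ := Metric.eventually_nhds_iff.mp h4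
    refine ⟨δ, hδ, fun s Y h6 h7 => ?_⟩
    apply @h5 (s, Y)
    rw [Prod.dist_eq, dist_eq_norm, dist_eq_norm]
    exact max_lt h6 h7
  have hcub : Continuous (fun τ : F => cub τ) := by
    unfold cub
    fun_prop
  obtain ⟨η, hη, hη1⟩ : ∃ η > 0, ∀ τ : F, ‖τ - x0‖ < η → ‖cub τ - cub x0‖ < δ ^ 2 := by
    have := (Metric.continuous_iff.mp hcub) x0 (δ ^ 2) (by positivity)
    obtain ⟨η, hη, h3⟩ := this
    refine ⟨η, hη, fun τ h4 => ?_⟩
    have h5 := h3 τ (by rw [dist_eq_norm]; exact h4)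
    rw [dist_eq_norm] at h5
    exact h5
  obtain ⟨τ, hτ1, hτ2, hτ3⟩ := cno F hF x0 (min ε η) (lt_min hε hη)
  obtain ⟨s, hs, hss⟩ : ∃ s : F, s ^ 2 = cub τ ∧ ‖s - s0‖ < δ := by
    obtain ⟨s, hs⟩ := hquad 0 (-cub τ)
    have hs' : s ^ 2 = cub τ := by linear_combination hs
    have h3 := hη1 τ (lt_of_lt_of_le hτ1 (min_le_right _ _))
    have h4 : cub τ - cub x0 = (s - s0) * (s + s0) := by
      rw [← hs', ← hs0']
      ring
    rw [h4, norm_mul] at h3
    by_cases h5 : ‖s - s0‖ < δ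
    · exact ⟨s, hs', h5⟩
    · push Not at h5
      refine ⟨-s, by rw [← hs']; ring, ?_⟩
      have h6 : ‖-s - s0‖ = ‖s + s0‖ := by
        rw [← norm_neg]
        congr 1
        ring
      rw [h6]
      by_contra h7
      push Not at h7
      have : δ ^ 2 ≤ ‖s - s0‖ * ‖s + s0‖ := by
        rw [pow_two]
        exact mul_le_mul h5 h7 hδ.le (norm_nonneg _)
      linarith
  have hsne : s ≠ 0 := by
    rintro rfl
    apply hτ2
    rw [← hs]
    ring
  have hP1 : (W (1 : F)).Nonsingular τ s := by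
    rw [W_nonsingular 1 τ s h2 one_ne_zero, hs]
    unfold cub
    ring
  obtain ⟨P, hP⟩ : ∃ P : Pt (1 : F), P = Point.some τ s hP1 := ⟨_, rfl⟩
  have hP0 : P ≠ 0 := by
    rw [hP]
    exact Point.some_ne_zero hP1
  have hPX : cX P = τ := by rw [hP]; rfl
  have hPY : cY P = s := by rw [hP]; rfl
  have hQ1 : (W (1 : F)).Nonsingular t0 (y0 / s0) := by
    rw [W_nonsingular 1 t0 _ h2 one_ne_zero, div_pow, hU1, hs0']
    field_simp
    unfold cub
    ring
  have hsmm : ∀ (a b : GaussianInt) (R : Pt (1 : F)), sm (a * b) R = sm a (sm b R) := by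
    intro a b R
    exact mul_gsm (algebraMap GaussianInt F) a b R
  have hsma : ∀ (a b : GaussianInt) (R : Pt (1 : F)), sm (a + b) R = sm a R + sm b R := by
    intro a b R
    exact add_gsm (algebraMap GaussianInt F) a b R
  obtain ⟨a, ha0, haX, haY⟩ := cge F hF (sm m P) (by
    intro b hb h0
    rw [← hsmm] at h0
    exact hτ3 P hP0 hPX (b * m) (mul_ne_zero hb hm) h0) (sm k0 P)
    (Point.some t0 (y0 / s0) hQ1) (min δ ε) (Point.some_ne_zero hQ1)
    (lt_min hδ hε)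
  have hk : sm k0 P + sm a (sm m P) = sm (k0 + a * m) P := by
    rw [hsma, hsmm]
  rw [hk] at ha0 haX haY
  obtain ⟨σ, hσ1, hσ2, hσ3⟩ := ksc F 1 s h2 one_ne_zero hsne
  have hck := ck_eq (k0 + a * m) τ s (s ^ 2 * 1) hs hsne (by rw [hs, mul_one]) σ hσ1 hσ2 hσ3 P hP0
    hPX hPY
  have haX' : ‖cX (sm (k0 + a * m) P) - t0‖ < min δ ε := haX
  have haY' : ‖cY (sm (k0 + a * m) P) - y0 / s0‖ < min δ ε := haY
  obtain ⟨h8, h9⟩ := hδ1 s (cY (sm (k0 + a * m) P)) hss (lt_of_lt_of_le haY' (min_le_left _ _))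
  refine ⟨k0 + a * m, τ, ⟨a, by ring⟩, ?_, ?_⟩
  · rw [hck]
    apply hball
    rw [Metric.mem_ball, Prod.dist_eq, Prod.dist_eq, dist_eq_norm, dist_eq_norm, dist_eq_norm]
    refine max_lt (lt_of_lt_of_le hτ1 (min_le_left _ _)) (max_lt ?_ h8)
    exact lt_of_lt_of_le haX' (min_le_right _ _)
  · rw [hck]
    refine ⟨?_, h9⟩
    show (s * cY (sm (k0 + a * m) P)) ^ 2 = cub τ * cub (cX (sm (k0 + a * m) P))
    rw [mul_pow, hs, curve_eq _ ha0]
    unfold cub
    ring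

end Pool.Agent.WAP.H46
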